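import Pool.Agent.H295R3.W.StmtsB

/-!
# Numerics of `p^{-i π / log 2}` for the odd primes below `100` (task W of the project H295-W2)

`log_2 p` is enclosed between two fractions, `π log_2 p = π m / 2 + π s` with `|s| ≤ 1/4`, and the
exponential of `-π s i` is computed by its Taylor polynomial.
-/

set_option autoImplicit false

namespace Pool.Agent.H114R3.W

open Complex

/-- multiplication by `-i`, `n` times -/
def rot : ℕ → ℚ × ℚ → ℚ × ℚ
  | 0, z => z
  | n + 1, z => ((rot n z).2, -(rot n z).1)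

theorem rot_cast (n : ℕ) (z : ℚ × ℚ) :
    (((rot n z).1 : ℂ) + ((rot n z).2 : ℂ) * I) = (-I) ^ n * ((z.1 : ℂ) + (z.2 : ℂ) * I) := by
  induction n with
  | zero => simp [rot]
  | succ n ih =>
    rw [pow_succ, mul_comm ((-I) ^ n) (-I), mul_assoc, ← ih]
    simp only [rot]
    push_cast
    linear_combination ((rot n z).2 : ℂ) * I_sq

/-- the Taylor polynomial of the cosine -/
def cosT (y : ℚ) : ℚ := 1 - y ^ 2 / 2 + y ^ 4 / 24 - y ^ 6 / 720 + y ^ 8 / 40320

/-- the Taylor polynomial of the sine -/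
def sinT (y : ℚ) : ℚ := y - y ^ 3 / 6 + y ^ 5 / 120 - y ^ 7 / 5040 + y ^ 9 / 362880

theorem taylor (y : ℚ) (hy : |y| ≤ 1) :
    ‖Complex.exp (-(y : ℂ) * I) - ((cosT y : ℂ) + ((-sinT y : ℚ) : ℂ) * I)‖ ≤ 31 / 10 ^ 8 := by
  have hnorm : ‖-(y : ℂ) * I‖ ≤ 1 := by
    rw [norm_mul, norm_neg, norm_I, mul_one, Complex.norm_ratCast]
    exact_mod_cast hy
  have h := Complex.exp_bound (x := -(y : ℂ) * I) hnorm (n := 10) (by norm_num)
  have h2 : ∑ m ∈ Finset.range 10, (-(y : ℂ) * I) ^ m / (m.factorial : ℂ) =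
      (cosT y : ℂ) + ((-sinT y : ℚ) : ℂ) * I := by
    simp only [Finset.sum_range_succ, Finset.sum_range_zero, cosT, sinT, Nat.factorial]
    push_cast
    have e2 : I ^ 2 = -1 := I_sq
    have e3 : I ^ 3 = -I := by rw [pow_succ, e2]; ring
    have e4 : I ^ 4 = 1 := by rw [pow_succ, e3]; linear_combination -e2
    have e5 : I ^ 5 = I := by rw [pow_succ, e4]; ring
    have e6 : I ^ 6 = -1 := by rw [pow_succ, e5]; linear_combination e2
    have e7 : I ^ 7 = -I := by rw [pow_succ, e6]; ring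
    have e8 : I ^ 8 = 1 := by rw [pow_succ, e7]; linear_combination -e2
    have e9 : I ^ 9 = I := by rw [pow_succ, e8]; ring
    simp only [mul_pow, e2, e3, e4, e5, e6, e7, e8, e9]
    ring
  rw [h2] at h
  refine h.trans ?_
  have h3 : ‖-(y : ℂ) * I‖ ^ 10 ≤ 1 := pow_le_one₀ (norm_nonneg _) hnorm
  have h4 : (0 : ℝ) ≤ ((Nat.succ 10 : ℕ) : ℝ) * (((Nat.factorial 10 : ℕ) : ℝ) * ((10 : ℕ) : ℝ))⁻¹ := by positivity
  calc ‖-(y : ℂ) * I‖ ^ 10 * (((Nat.succ 10 : ℕ) : ℝ) * (((Nat.factorial 10 : ℕ) : ℝ) * ((10 : ℕ) : ℝ))⁻¹)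
      ≤ 1 * (((Nat.succ 10 : ℕ) : ℝ) * (((Nat.factorial 10 : ℕ) : ℝ) * ((10 : ℕ) : ℝ))⁻¹) :=
        mul_le_mul_of_nonneg_right h3 h4
    _ ≤ 31 / 10 ^ 8 := by
        norm_num [Nat.factorial]

theorem exp_I_sub_le (a b : ℝ) :
    ‖Complex.exp (-(a : ℂ) * I) - Complex.exp (-(b : ℂ) * I)‖ ≤ |a - b| := by
  have h1 : Complex.exp (-(a : ℂ) * I) - Complex.exp (-(b : ℂ) * I) =
      Complex.exp (-(b : ℂ) * I) * (Complex.exp (I * ((b - a : ℝ) : ℂ)) - 1) := by
    rw [mul_sub, ← Complex.exp_add, mul_one]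
    congr 2
    push_cast
    ring
  rw [h1, norm_mul]
  have h2 : ‖Complex.exp (-(b : ℂ) * I)‖ = 1 := by
    have : -(b : ℂ) * I = ((-b : ℝ) : ℂ) * I := by push_cast; ring
    rw [this, Complex.norm_exp_ofReal_mul_I]
  rw [h2, one_mul]
  have h3 := Real.norm_exp_I_mul_ofReal_sub_one_le (x := b - a)
  rw [Real.norm_eq_abs, abs_sub_comm] at h3
  exact h3

theorem log_lower {p a b : ℕ} (hb : 0 < b) (h : 2 ^ a < p ^ b) :
    (a : ℝ) / b ≤ Real.log p / Real.log 2 := by
  have h2 : 0 < Real.log 2 := Real.log_pos (by norm_num)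
  have hb' : (0 : ℝ) < b := by exact_mod_cast hb
  rw [div_le_div_iff₀ hb' h2]
  have h3 : ((2 : ℝ) ^ a) ≤ (p : ℝ) ^ b := by exact_mod_cast h.le
  have h4 := Real.log_le_log (by positivity) h3
  rw [Real.log_pow, Real.log_pow] at h4
  linarith

theorem log_upper {p a b : ℕ} (hb : 0 < b) (hp : 0 < p) (h : p ^ b < 2 ^ a) :
    Real.log p / Real.log 2 ≤ (a : ℝ) / b := by
  have h2 : 0 < Real.log 2 := Real.log_pos (by norm_num)
  have hb' : (0 : ℝ) < b := by exact_mod_cast hb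
  have hp' : (0 : ℝ) < p := by exact_mod_cast hp
  rw [div_le_div_iff₀ h2 hb']
  have h3 : (p : ℝ) ^ b ≤ ((2 : ℝ) ^ a) := by exact_mod_cast h.le
  have h4 := Real.log_le_log (by positivity) h3
  rw [Real.log_pow, Real.log_pow] at h4
  linarith

theorem exp_pi_half (m : ℕ) : Complex.exp (-((Real.pi * (m / 2) : ℝ) : ℂ) * I) = (-I) ^ m := by
  have h1 : -((Real.pi * (m / 2) : ℝ) : ℂ) * I = (m : ℂ) * (-(Real.pi / 2 : ℂ) * I) := by
    push_cast
    ring
  rw [h1, Complex.exp_nat_mul]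
  congr 1
  have h2 : -(Real.pi / 2 : ℂ) * I = -((Real.pi / 2 : ℂ) * I) := by ring
  rw [h2, Complex.exp_neg, Complex.exp_pi_div_two_mul_I]
  simp

theorem one (p a1 b1 a2 b2 m : ℕ) (k : ℤ) (u v : ℚ) (hp : 0 < p) (hb1 : 0 < b1) (hb2 : 0 < b2)
    (h1 : 2 ^ a1 < p ^ b1) (h2 : p ^ b2 < 2 ^ a2)
    (h3 : ((m : ℚ) / 2 + (k : ℚ) / 10 ^ 7) - 1 / 200000 ≤ (a1 : ℚ) / b1)
    (h4 : (a2 : ℚ) / b2 ≤ ((m : ℚ) / 2 + (k : ℚ) / 10 ^ 7) + 1 / 200000)
    (hk : |(k : ℚ) / 10 ^ 7| ≤ 1 / 4)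
    (h5 : |(rot m (cosT (31415927 / 10 ^ 7 * ((k : ℚ) / 10 ^ 7)),
        -sinT (31415927 / 10 ^ 7 * ((k : ℚ) / 10 ^ 7)))).1 - u| +
      |(rot m (cosT (31415927 / 10 ^ 7 * ((k : ℚ) / 10 ^ 7)),
        -sinT (31415927 / 10 ^ 7 * ((k : ℚ) / 10 ^ 7)))).2 - v| ≤ 34 / 10 ^ 7) :
    ‖Complex.exp (-((Real.pi * Real.log p / Real.log 2 : ℝ) : ℂ) * I) -
      ((u : ℂ) + (v : ℂ) * I)‖ ≤ 1 / 50000 := by
  set s0 : ℚ := (k : ℚ) / 10 ^ 7 with hs0
  set y0 : ℚ := 31415927 / 10 ^ 7 * s0 with hy0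
  set z : ℚ × ℚ := rot m (cosT y0, -sinT y0) with hz
  have hy0' : |y0| ≤ 1 := by
    rw [hy0, abs_mul]
    have : |(31415927 / 10 ^ 7 : ℚ)| = 31415927 / 10 ^ 7 := by norm_num
    rw [this]
    nlinarith [abs_nonneg s0]
  set r : ℝ := Real.log p / Real.log 2 with hr
  have e1 := log_lower hb1 h1
  have e2 := log_upper hb2 hp h2
  rw [← hr] at e1 e2
  set s : ℝ := r - (m : ℝ) / 2 with hs
  have h3' : ((m : ℝ) / 2 + (s0 : ℝ)) - 1 / 200000 ≤ (a1 : ℝ) / b1 := by
    have := (Rat.cast_le (K := ℝ)).2 h3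
    push_cast at this ⊢
    exact this
  have h4' : (a2 : ℝ) / b2 ≤ ((m : ℝ) / 2 + (s0 : ℝ)) + 1 / 200000 := by
    have := (Rat.cast_le (K := ℝ)).2 h4
    push_cast at this ⊢
    exact this
  have hss : |s - (s0 : ℝ)| ≤ 1 / 200000 := by
    rw [abs_le]
    constructor <;> rw [hs] <;> linarith
  have hs0' : |(s0 : ℝ)| ≤ 1 / 4 := by
    have := (Rat.cast_le (K := ℝ)).2 hk
    push_cast at this ⊢
    exact this
  -- split the exponential
  have g1 : Complex.exp (-((Real.pi * Real.log p / Real.log 2 : ℝ) : ℂ) * I) =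
      (-I) ^ m * Complex.exp (-((Real.pi * s : ℝ) : ℂ) * I) := by
    rw [← exp_pi_half m, ← Complex.exp_add]
    congr 1
    have : Real.pi * Real.log p / Real.log 2 = Real.pi * ((m : ℝ) / 2) + Real.pi * s := by
      rw [hs, hr]
      ring
    rw [this]
    push_cast
    ring
  have g2 : ((z.1 : ℂ) + (z.2 : ℂ) * I) = (-I) ^ m * ((cosT y0 : ℂ) + ((-sinT y0 : ℚ) : ℂ) * I) := by
    rw [hz, rot_cast]
  have hpi : |Real.pi - 31415927 / 10 ^ 7| ≤ 1 / 10 ^ 6 := by
    have p1 := Real.pi_gt_d6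
    have p2 := Real.pi_lt_d6
    rw [abs_le]
    constructor <;> norm_num at p1 p2 ⊢ <;> linarith
  have hpiy : |Real.pi * s - (y0 : ℝ)| ≤ 16 / 10 ^ 6 := by
    have e : Real.pi * s - (y0 : ℝ) = Real.pi * (s - s0) + (Real.pi - 31415927 / 10 ^ 7) * s0 := by
      rw [hy0]
      push_cast
      ring
    rw [e]
    refine (abs_add_le _ _).trans ?_
    rw [abs_mul, abs_mul, abs_of_pos Real.pi_pos]
    have q1 : Real.pi * |s - (s0 : ℝ)| ≤ 3.15 * (1 / 200000) :=
      mul_le_mul Real.pi_lt_d2.le hss (abs_nonneg _) (by norm_num)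
    have q2 : |Real.pi - 31415927 / 10 ^ 7| * |(s0 : ℝ)| ≤ 1 / 10 ^ 6 * (1 / 4) :=
      mul_le_mul hpi hs0' (abs_nonneg _) (by norm_num)
    norm_num at q1 q2 ⊢
    linarith
  have g3 : ‖Complex.exp (-((Real.pi * s : ℝ) : ℂ) * I) - Complex.exp (-(y0 : ℂ) * I)‖ ≤
      16 / 10 ^ 6 := by
    have := exp_I_sub_le (Real.pi * s) (y0 : ℝ)
    have e : ((y0 : ℝ) : ℂ) = (y0 : ℂ) := by push_cast; rfl
    rw [e] at this
    exact this.trans hpiy
  have g4 := taylor y0 hy0'
  have hI : ‖(-I) ^ m‖ = 1 := by rw [norm_pow, norm_neg, norm_I, one_pow]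
  have g5 : ‖((z.1 : ℂ) + (z.2 : ℂ) * I) - ((u : ℂ) + (v : ℂ) * I)‖ ≤ 34 / 10 ^ 7 := by
    have e : ((z.1 : ℂ) + (z.2 : ℂ) * I) - ((u : ℂ) + (v : ℂ) * I) =
        ((z.1 - u : ℚ) : ℂ) + ((z.2 - v : ℚ) : ℂ) * I := by
      push_cast
      ring
    rw [e]
    refine (norm_add_le _ _).trans ?_
    rw [norm_mul, norm_I, mul_one, Complex.norm_ratCast, Complex.norm_ratCast]
    have := (Rat.cast_le (K := ℝ)).2 h5
    push_cast at this ⊢
    exact this
  have tot : Complex.exp (-((Real.pi * Real.log p / Real.log 2 : ℝ) : ℂ) * I) -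
      ((u : ℂ) + (v : ℂ) * I) =
      (-I) ^ m * (Complex.exp (-((Real.pi * s : ℝ) : ℂ) * I) - Complex.exp (-(y0 : ℂ) * I)) +
      (-I) ^ m * (Complex.exp (-(y0 : ℂ) * I) - ((cosT y0 : ℂ) + ((-sinT y0 : ℚ) : ℂ) * I)) +
      (((z.1 : ℂ) + (z.2 : ℂ) * I) - ((u : ℂ) + (v : ℂ) * I)) := by
    rw [g1, g2]
    ring
  rw [tot]
  refine (norm_add₃_le).trans ?_
  rw [norm_mul, norm_mul, hI, one_mul, one_mul]
  have : (16 / 10 ^ 6 + 31 / 10 ^ 8 + 34 / 10 ^ 7 : ℝ) ≤ 1 / 50000 := by norm_num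
  linarith

theorem w3 : ‖Complex.exp (-((Real.pi * Real.log (3 : ℕ) / Real.log 2 : ℝ) : ℂ) * I) -
    (((263759 / 1000000 : ℚ) : ℂ) + ((964588 / 1000000 : ℚ) : ℂ) * I)‖ ≤ 1 / 50000 :=
  one 3 569 359 485 306 3 (849625) _ _ (by decide +kernel) (by decide +kernel) (by decide +kernel)
    (by decide +kernel) (by decide +kernel) (by decide +kernel) (by decide +kernel)
    (by decide +kernel) (by decide +kernel)

theorem w5 : ‖Complex.exp (-((Real.pi * Real.log (5 : ℕ) / Real.log 2 : ℝ) : ℂ) * I) -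
    (((530703 / 1000000 : ℚ) : ℂ) + ((-847558 / 1000000 : ℚ) : ℂ) * I)‖ ≤ 1 / 50000 :=
  one 5 1832 789 1154 497 5 (-1780719) _ _ (by decide +kernel) (by decide +kernel) (by decide +kernel)
    (by decide +kernel) (by decide +kernel) (by decide +kernel) (by decide +kernel)
    (by decide +kernel) (by decide +kernel)

theorem w7 : ‖Complex.exp (-((Real.pi * Real.log (7 : ℕ) / Real.log 2 : ℝ) : ℂ) * I) -
    (((-822381 / 1000000 : ℚ) : ℂ) + ((-568937 / 1000000 : ℚ) : ℂ) * I)‖ ≤ 1 / 50000 :=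
  one 7 1909 680 1297 462 6 (-1926451) _ _ (by decide +kernel) (by decide +kernel) (by decide +kernel)
    (by decide +kernel) (by decide +kernel) (by decide +kernel) (by decide +kernel)
    (by decide +kernel) (by decide +kernel)

theorem w11 : ‖Complex.exp (-((Real.pi * Real.log (11 : ℕ) / Real.log 2 : ℝ) : ℂ) * I) -
    (((-127105 / 1000000 : ℚ) : ℂ) + ((991889 / 1000000 : ℚ) : ℂ) * I)‖ ≤ 1 / 50000 :=
  one 11 2899 838 3411 986 7 (-405684) _ _ (by decide +kernel) (by decide +kernel) (by decide +kernel)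
    (by decide +kernel) (by decide +kernel) (by decide +kernel) (by decide +kernel)
    (by decide +kernel) (by decide +kernel)

theorem w13 : ‖Complex.exp (-((Real.pi * Real.log (13 : ℕ) / Real.log 2 : ℝ) : ℂ) * I) -
    (((588902 / 1000000 : ℚ) : ℂ) + ((808204 / 1000000 : ℚ) : ℂ) * I)‖ ≤ 1 / 50000 :=
  one 13 3397 918 840 227 7 (2004397) _ _ (by decide +kernel) (by decide +kernel) (by decide +kernel)
    (by decide +kernel) (by decide +kernel) (by decide +kernel) (by decide +kernel)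
    (by decide +kernel) (by decide +kernel)

theorem w17 : ‖Complex.exp (-((Real.pi * Real.log (17 : ℕ) / Real.log 2 : ℝ) : ℂ) * I) -
    (((962487 / 1000000 : ℚ) : ℂ) + ((-271328 / 1000000 : ℚ) : ℂ) * I)‖ ≤ 1 / 50000 :=
  one 17 2477 606 1402 343 8 (874628) _ _ (by decide +kernel) (by decide +kernel) (by decide +kernel)
    (by decide +kernel) (by decide +kernel) (by decide +kernel) (by decide +kernel)
    (by decide +kernel) (by decide +kernel)

theorem w19 : ‖Complex.exp (-((Real.pi * Real.log (19 : ℕ) / Real.log 2 : ℝ) : ℂ) * I) -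
    (((711696 / 1000000 : ℚ) : ℂ) + ((-702488 / 1000000 : ℚ) : ℂ) * I)‖ ≤ 1 / 50000 :=
  one 19 3581 843 5637 1327 8 (2479275) _ _ (by decide +kernel) (by decide +kernel) (by decide +kernel)
    (by decide +kernel) (by decide +kernel) (by decide +kernel) (by decide +kernel)
    (by decide +kernel) (by decide +kernel)

theorem w23 : ‖Complex.exp (-((Real.pi * Real.log (23 : ℕ) / Real.log 2 : ℝ) : ℂ) * I) -
    (((-73954 / 1000000 : ℚ) : ℂ) + ((-997262 / 1000000 : ℚ) : ℂ) * I)‖ ≤ 1 / 50000 :=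
  one 23 864 191 3551 785 9 (235620) _ _ (by decide +kernel) (by decide +kernel) (by decide +kernel)
    (by decide +kernel) (by decide +kernel) (by decide +kernel) (by decide +kernel)
    (by decide +kernel) (by decide +kernel)

theorem w29 : ‖Complex.exp (-((Real.pi * Real.log (29 : ℕ) / Real.log 2 : ℝ) : ℂ) * I) -
    (((-902108 / 1000000 : ℚ) : ℂ) + ((-431510 / 1000000 : ℚ) : ℂ) * I)‖ ≤ 1 / 50000 :=
  one 29 2497 514 4139 852 10 (-1420190) _ _ (by decide +kernel) (by decide +kernel) (by decide +kernel)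
    (by decide +kernel) (by decide +kernel) (by decide +kernel) (by decide +kernel)
    (by decide +kernel) (by decide +kernel)

theorem w31 : ‖Complex.exp (-((Real.pi * Real.log (31 : ℕ) / Real.log 2 : ℝ) : ℂ) * I) -
    (((-989665 / 1000000 : ℚ) : ℂ) + ((-143400 / 1000000 : ℚ) : ℂ) * I)‖ ≤ 1 / 50000 :=
  one 31 5732 1157 649 131 10 (-458037) _ _ (by decide +kernel) (by decide +kernel) (by decide +kernel)
    (by decide +kernel) (by decide +kernel) (by decide +kernel) (by decide +kernel)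
    (by decide +kernel) (by decide +kernel)

theorem w37 : ‖Complex.exp (-((Real.pi * Real.log (37 : ℕ) / Real.log 2 : ℝ) : ℂ) * I) -
    (((-791206 / 1000000 : ℚ) : ℂ) + ((611549 / 1000000 : ℚ) : ℂ) * I)‖ ≤ 1 / 50000 :=
  one 37 3308 635 6392 1227 10 (2094534) _ _ (by decide +kernel) (by decide +kernel) (by decide +kernel)
    (by decide +kernel) (by decide +kernel) (by decide +kernel) (by decide +kernel)
    (by decide +kernel) (by decide +kernel)

theorem w41 : ‖Complex.exp (-((Real.pi * Real.log (41 : ℕ) / Real.log 2 : ℝ) : ℂ) * I) -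
    (((-432725 / 1000000 : ℚ) : ℂ) + ((901526 / 1000000 : ℚ) : ℂ) * I)‖ ≤ 1 / 50000 :=
  one 41 3761 702 2802 523 11 (-1424480) _ _ (by decide +kernel) (by decide +kernel) (by decide +kernel)
    (by decide +kernel) (by decide +kernel) (by decide +kernel) (by decide +kernel)
    (by decide +kernel) (by decide +kernel)

theorem w43 : ‖Complex.exp (-((Real.pi * Real.log (43 : ℕ) / Real.log 2 : ℝ) : ℂ) * I) -
    (((-229580 / 1000000 : ℚ) : ℂ) + ((973290 / 1000000 : ℚ) : ℂ) * I)‖ ≤ 1 / 50000 :=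
  one 43 2686 495 2355 434 11 (-737352) _ _ (by decide +kernel) (by decide +kernel) (by decide +kernel)
    (by decide +kernel) (by decide +kernel) (by decide +kernel) (by decide +kernel)
    (by decide +kernel) (by decide +kernel)

theorem w47 : ‖Complex.exp (-((Real.pi * Real.log (47 : ℕ) / Real.log 2 : ℝ) : ℂ) * I) -
    (((170657 / 1000000 : ℚ) : ℂ) + ((985331 / 1000000 : ℚ) : ℂ) * I)‖ ≤ 1 / 50000 :=
  one 47 1272 229 3205 577 11 (545889) _ _ (by decide +kernel) (by decide +kernel) (by decide +kernel)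
    (by decide +kernel) (by decide +kernel) (by decide +kernel) (by decide +kernel)
    (by decide +kernel) (by decide +kernel)

theorem w53 : ‖Complex.exp (-((Real.pi * Real.log (53 : ℕ) / Real.log 2 : ℝ) : ℂ) * I) -
    (((656397 / 1000000 : ℚ) : ℂ) + ((754415 / 1000000 : ℚ) : ℂ) * I)‖ ≤ 1 / 50000 :=
  one 53 4021 702 2400 419 11 (2279205) _ _ (by decide +kernel) (by decide +kernel) (by decide +kernel)
    (by decide +kernel) (by decide +kernel) (by decide +kernel) (by decide +kernel)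
    (by decide +kernel) (by decide +kernel)

theorem w59 : ‖Complex.exp (-((Real.pi * Real.log (59 : ℕ) / Real.log 2 : ℝ) : ℂ) * I) -
    (((932801 / 1000000 : ℚ) : ℂ) + ((360392 / 1000000 : ℚ) : ℂ) * I)‖ ≤ 1 / 50000 :=
  one 59 2406 409 3559 605 12 (-1173570) _ _ (by decide +kernel) (by decide +kernel) (by decide +kernel)
    (by decide +kernel) (by decide +kernel) (by decide +kernel) (by decide +kernel)
    (by decide +kernel) (by decide +kernel)

theorem w61 : ‖Complex.exp (-((Real.pi * Real.log (61 : ℕ) / Real.log 2 : ℝ) : ℂ) * I) -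
    (((976419 / 1000000 : ℚ) : ℂ) + ((215882 / 1000000 : ℚ) : ℂ) * I)‖ ≤ 1 / 50000 :=
  one 61 1370 231 4881 823 12 (-692627) _ _ (by decide +kernel) (by decide +kernel) (by decide +kernel)
    (by decide +kernel) (by decide +kernel) (by decide +kernel) (by decide +kernel)
    (by decide +kernel) (by decide +kernel)

theorem w67 : ‖Complex.exp (-((Real.pi * Real.log (67 : ℕ) / Real.log 2 : ℝ) : ℂ) * I) -
    (((978523 / 1000000 : ℚ) : ℂ) + ((-206137 / 1000000 : ℚ) : ℂ) * I)‖ ≤ 1 / 50000 :=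
  one 67 3488 575 2111 348 12 (660892) _ _ (by decide +kernel) (by decide +kernel) (by decide +kernel)
    (by decide +kernel) (by decide +kernel) (by decide +kernel) (by decide +kernel)
    (by decide +kernel) (by decide +kernel)

theorem w71 : ‖Complex.exp (-((Real.pi * Real.log (71 : ℕ) / Real.log 2 : ℝ) : ℂ) * I) -
    (((891367 / 1000000 : ℚ) : ℂ) + ((-453282 / 1000000 : ℚ) : ℂ) * I)‖ ≤ 1 / 50000 :=
  one 71 2423 394 3696 601 12 (1497471) _ _ (by decide +kernel) (by decide +kernel) (by decide +kernel)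
    (by decide +kernel) (by decide +kernel) (by decide +kernel) (by decide +kernel)
    (by decide +kernel) (by decide +kernel)

theorem w73 : ‖Complex.exp (-((Real.pi * Real.log (73 : ℕ) / Real.log 2 : ℝ) : ℂ) * I) -
    (((827390 / 1000000 : ℚ) : ℂ) + ((-561627 / 1000000 : ℚ) : ℂ) * I)‖ ≤ 1 / 50000 :=
  one 73 3163 511 4989 806 12 (1898246) _ _ (by decide +kernel) (by decide +kernel) (by decide +kernel)
    (by decide +kernel) (by decide +kernel) (by decide +kernel) (by decide +kernel)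
    (by decide +kernel) (by decide +kernel)

theorem w79 : ‖Complex.exp (-((Real.pi * Real.log (79 : ℕ) / Real.log 2 : ℝ) : ℂ) * I) -
    (((578135 / 1000000 : ℚ) : ℂ) + ((-815941 / 1000000 : ℚ) : ℂ) * I)‖ ≤ 1 / 50000 :=
  one 79 3839 609 4835 767 13 (-1962193) _ _ (by decide +kernel) (by decide +kernel) (by decide +kernel)
    (by decide +kernel) (by decide +kernel) (by decide +kernel) (by decide +kernel)
    (by decide +kernel) (by decide +kernel)

theorem w83 : ‖Complex.exp (-((Real.pi * Real.log (83 : ℕ) / Real.log 2 : ℝ) : ℂ) * I) -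
    (((382569 / 1000000 : ℚ) : ℂ) + ((-923927 / 1000000 : ℚ) : ℂ) * I)‖ ≤ 1 / 50000 :=
  one 83 20228 3173 17984 2821 13 (-1249606) _ _ (by decide +kernel) (by decide +kernel) (by decide +kernel)
    (by decide +kernel) (by decide +kernel) (by decide +kernel) (by decide +kernel)
    (by decide +kernel) (by decide +kernel)

theorem w89 : ‖Complex.exp (-((Real.pi * Real.log (89 : ℕ) / Real.log 2 : ℝ) : ℂ) * I) -
    (((76162 / 1000000 : ℚ) : ℂ) + ((-997095 / 1000000 : ℚ) : ℂ) * I)‖ ≤ 1 / 50000 :=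
  one 89 12142 1875 6139 948 13 (-242666) _ _ (by decide +kernel) (by decide +kernel) (by decide +kernel)
    (by decide +kernel) (by decide +kernel) (by decide +kernel) (by decide +kernel)
    (by decide +kernel) (by decide +kernel)

theorem w97 : ‖Complex.exp (-((Real.pi * Real.log (97 : ℕ) / Real.log 2 : ℝ) : ℂ) * I) -
    (((-308757 / 1000000 : ℚ) : ℂ) + ((-951141 / 1000000 : ℚ) : ℂ) * I)‖ ≤ 1 / 50000 :=
  one 97 14335 2172 15160 2297 13 (999128) _ _ (by decide +kernel) (by decide +kernel) (by decide +kernel)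
    (by decide +kernel) (by decide +kernel) (by decide +kernel) (by decide +kernel)
    (by decide +kernel) (by decide +kernel)

end Pool.Agent.H114R3.W

namespace Pool.Agent.H295R3.W

open Pool.Agent.H114R3.W in
/-- the delivered statement -/
theorem taskW : TaskW := by
  intro x hx
  simp only [wtab, List.mem_cons, List.not_mem_nil, or_false] at hx
  rcases hx with rfl | rfl | rfl | rfl | rfl | rfl | rfl | rfl | rfl | rfl | rfl | rfl | rfl | rfl | rfl | rfl | rfl | rfl | rfl | rfl | rfl | rfl | rfl | rfl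
  · exact w3
  · exact w5
  · exact w7
  · exact w11
  · exact w13
  · exact w17
  · exact w19
  · exact w23
  · exact w29
  · exact w31
  · exact w37
  · exact w41
  · exact w43
  · exact w47
  · exact w53
  · exact w59
  · exact w61
  · exact w67
  · exact w71
  · exact w73
  · exact w79
  · exact w83
  · exact w89
  · exact w97

end Pool.Agent.H295R3.W
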